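import Pool.Agent.P8H3.CK.Sections

/-!
Chow-Künneth decompositions of varieties which are dominated degree by degree by finite-dimensional
motives and complete intersections.

`𝒞` is a preadditive category with biproducts, for instance the category of Chow motives over a field
with rational coefficients, `R j` are additive functors to vector spaces, for instance the groups
`H^j` of a Weil cohomology, and `P` is a class closed under sums on which homologically trivial
endomorphisms are nilpotent, for instance the effective finite-dimensional motives. The classes
`OneBad R P d` of objects with at most one exceptional degree `d` contain the members of `P` with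
algebraic Künneth projectors, are closed under sums, and contain every object `N` such that for each
degree `j ≠ d` there are a member `M` of a class with an exceptional degree different from `j` and
morphisms `N ⟶ M ⟶ N` which act as the identity on `R j N`. All objects of these classes have
Chow-Künneth decompositions whose projectors outside the exceptional degree factor through objects of
`P`.

The second part applies to complete intersections `Y` of ample divisors in a variety `X` which
satisfies the Lefschetz standard conjecture, where `h(X)` is in `P` or itself has the only exceptional
degree `dim X`. (If `Y` has codimension `c` one takes the motives `h(X)(-c)`, `h(Y)(-c)` and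
`X' = h(X)`; `r` is the restriction, `g` the Gysin morphism, and `d` is `dim X + c`.) In the other
direction the first part applies to every `X` satisfying the Lefschetz standard conjecture which
contains a smooth ample divisor `Y` with a finite-dimensional motive, with `d = dim X` (for `j < d` one
takes `h(X) ⟶ h(Y) ⟶ h(X)(1) ⟶ h(X)`). So all varieties which are homologically dominated by complete
intersections in abelian varieties or in products of curves have Chow-Künneth decompositions, over any
field, and so on.
-/

namespace Pool.Agent.Results.MP_638e8a_ag.CompleteIntersections

open CategoryTheory CategoryTheory.Limits Pool.Agent.Y110.CK Pool.Agent.P8H3.CK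

universe v u w

theorem result {𝒞 : Type u} [Category.{v} 𝒞] [Preadditive 𝒞] [HasBinaryBiproducts 𝒞]
    {K : Type w} [Field K] (R : ℕ → 𝒞 ⥤ ModuleCat.{w} K) [∀ j, (R j).Additive]
    (P : 𝒞 → Prop) (hP : NilClass R P) :
    (∀ (d : ℕ) (M : 𝒞), OneBad R P d M → ∃ n π, IsCK R M n π ∧ ∀ j, j ≠ d → Through P (π j)) ∧
    (∀ (d e e' : ℕ) (X X' Y : 𝒞), d ≤ e → e' ≤ d → ∀ (r : X ⟶ Y) (g : Y ⟶ X') (l : ℕ → (X' ⟶ X)),
      (∀ j, j < d → Function.Surjective ((R j).map r)) →
      (∀ j, d < j → Function.Injective ((R j).map g)) →
      (∀ j, j < d → (R j).map (r ≫ g ≫ l j) = 𝟙 _) →
      (∀ j, d < j → (R j).map (l j ≫ r ≫ g) = 𝟙 _) →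
      OneBad R P e X → OneBad R P e' X' → OneBad R P d Y) :=
  ⟨fun _ _ hM => hM.hasCK hP, fun d e e' X X' Y he he' r g l hr hg hl hl' hX hX' =>
    OneBad.section' hP d e e' X X' Y he he' r g l hr hg hl hl' hX hX'⟩

end Pool.Agent.Results.MP_638e8a_ag.CompleteIntersections
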