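import Pool.Agent.P8H3.CK.Good

/-!
Chow-Künneth decompositions of motives built from motives of surfaces and finite-dimensional motives.

`𝒞` is a preadditive category with biproducts, for instance the category of Chow motives over a field
with rational coefficients, and `R j` are additive functors to vector spaces, for instance the groups
`H^j` of a Weil cohomology. `P` is a class closed under sums on which homologically trivial
endomorphisms are nilpotent, for instance the effective finite-dimensional motives. `Q j` are classes containing
`P`, closed under sums, such that for `i < j` all maps from objects of `Q i` to objects of `Q j` factor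
through `P`. For instance `Q j` is the class of the sums of effective finite-dimensional motives and
transcendental motives `t_2(S)(-a)` of surfaces with `2 + 2 a = j`. We consider objects with
endomorphisms `x j` through `Q j` which act as the Künneth projectors and are orthogonal idempotents
with sum `1` modulo endomorphisms through `P`. All objects of the class generated by these objects
under direct sums and direct summands have Chow-Künneth decompositions with projectors through `Q j`.
The main point is the case of direct summands: it uses that an idempotent of a triangular ring is
conjugate to its diagonal part.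
-/

namespace Pool.Agent.Results.MP_638e8a_ag.TriangularMotives

open CategoryTheory CategoryTheory.Limits Pool.Agent.Y110.CK Pool.Agent.P8H3.CK

universe v u w

theorem result {𝒞 : Type u} [Category.{v} 𝒞] [Preadditive 𝒞] [HasBinaryBiproducts 𝒞]
    {K : Type w} [Field K] (R : ℕ → 𝒞 ⥤ ModuleCat.{w} K) [∀ j, (R j).Additive]
    (P : 𝒞 → Prop) (Q : ℕ → 𝒞 → Prop) (hP : NilClass R P) (hQ : Graded P Q) :
    (∀ M : 𝒞, Generated R P Q M → ∃ n π, IsCK R M n π ∧ ∀ j, Through (Q j) (π j)) ∧
    (∀ N : 𝒞, P N → HasCK R N → Generated R P Q N) ∧
    (∀ (w : ℕ) (N : 𝒞), Q w N → (∀ j, j ≠ w → (R j).map (𝟙 N) = 0) → Generated R P Q N) :=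
  ⟨fun _ hM => hM.hasCK hP hQ, fun _ h1 h2 => generated_basic hQ h1 h2,
    fun w _ h1 h2 => generated_piece hP hQ w h1 h2⟩

end Pool.Agent.Results.MP_638e8a_ag.TriangularMotives
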